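import Pool.Agent.Helper880_AH.Tf

/-!
# Rational invariants and their values
-/

set_option autoImplicit false
set_option linter.unusedSectionVars false
set_option linter.unusedVariables false

open Matrix Module PowerSeries

namespace Pool.Agent.Helper880_AH

open Pool.Agent.Helper880_ZP
open Pool.Agent.Helper880_HC (Ten tC)
open Pool.Agent.Helper880_R3 (Cc ec ec_add ec_mul Cc_coe ec_coe)
open Pool.Agent.Helper880_DB (prod_one)

variable {n r₀ d₀ d : ℕ}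

section ev
variable {q : ℝ}

theorem ec_zero : Cc q (0 : ℂ⟦X⟧) ∧ ec q (0 : ℂ⟦X⟧) = 0 := by
  have h1 := Cc_coe (q := q) (0 : Polynomial ℂ)
  have h2 := ec_coe (q := q) (0 : Polynomial ℂ)
  rw [Polynomial.coe_zero] at h1 h2
  rw [Polynomial.eval_zero] at h2
  exact ⟨h1, h2⟩

theorem ec_one : Cc q (1 : ℂ⟦X⟧) ∧ ec q (1 : ℂ⟦X⟧) = 1 := by
  have h1 := Cc_coe (q := q) (1 : Polynomial ℂ)
  have h2 := ec_coe (q := q) (1 : Polynomial ℂ)
  rw [Polynomial.coe_one] at h1 h2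
  rw [Polynomial.eval_one] at h2
  exact ⟨h1, h2⟩

theorem ec_sum {ι : Type} (s : Finset ι) {F : ι → ℂ⟦X⟧} (h : ∀ i, Cc q (F i)) :
    Cc q (∑ i ∈ s, F i) ∧ ec q (∑ i ∈ s, F i) = ∑ i ∈ s, ec q (F i) := by
  classical
  induction s using Finset.induction_on with
  | empty =>
    rw [Finset.sum_empty, Finset.sum_empty]
    exact ec_zero
  | insert a s ha ih =>
    rw [Finset.sum_insert ha, Finset.sum_insert ha]
    exact ⟨(h a).add ih.1, by rw [ec_add (h a) ih.1, ih.2]⟩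

theorem ec_prod {ι : Type} (s : Finset ι) {F : ι → ℂ⟦X⟧} (h : ∀ i, Cc q (F i)) :
    Cc q (∏ i ∈ s, F i) ∧ ec q (∏ i ∈ s, F i) = ∏ i ∈ s, ec q (F i) := by
  classical
  induction s using Finset.induction_on with
  | empty =>
    rw [Finset.prod_empty, Finset.prod_empty]
    exact ec_one
  | insert a s ha ih =>
    rw [Finset.prod_insert ha, Finset.prod_insert ha]
    exact ⟨(h a).mul ih.1, by rw [ec_mul (h a) ih.1, ih.2]⟩

end ev

/-- the rational tensors which are killed by `𝔤` are, up to a polynomial factor, the images of polynomial tensors under `Z` -/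
def RI (Z : Matrix (Fin n) (Fin n) ℚ⟦X⟧) (𝔤 : Submodule ℂ (Matrix (Fin n) (Fin n) ℂ)) : Prop :=
  ∀ (d : ℕ) (g : (Fin d → Fin n) → ℚ),
    (∀ X ∈ 𝔤, ∀ v, ∑ l, ∑ a, X (v l) a * (g (Function.update v l a) : ℂ) = 0) →
    ∃ (q : Polynomial ℚ) (R : (Fin d → Fin n) → Polynomial ℚ), q ≠ 0 ∧
      ∀ v, (q : ℚ⟦X⟧) * PowerSeries.C (g v) = ∑ v', (∏ l, Z (v l) (v' l)) * (R v' : ℚ⟦X⟧)

/-- the complex power series -/
noncomputable def cx (f : ℚ⟦X⟧) : ℂ⟦X⟧ := PowerSeries.map (algebraMap ℚ ℂ) f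

theorem cx_poly (p : Polynomial ℚ) : cx (p : ℚ⟦X⟧) = ((p.map (algebraMap ℚ ℂ) : Polynomial ℂ) : ℂ⟦X⟧) := by
  ext m
  rw [cx, PowerSeries.coeff_map, Polynomial.coeff_coe, Polynomial.coeff_coe, Polynomial.coeff_map]

theorem ec_poly (u₀ : ℚ) (p : Polynomial ℚ) : Cc (u₀ : ℝ) (cx (p : ℚ⟦X⟧)) ∧ ec (u₀ : ℝ) (cx (p : ℚ⟦X⟧)) = ((p.eval u₀ : ℚ) : ℂ) := by
  rw [cx_poly]
  refine ⟨Cc_coe _, ?_⟩
  rw [ec_coe, Polynomial.eval_map]
  have h1 : (((u₀ : ℝ)) : ℂ) = algebraMap ℚ ℂ u₀ := by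
    rw [eq_ratCast]
    push_cast
    rfl
  rw [h1, Polynomial.eval₂_at_apply, eq_ratCast]

/-- evaluation of the identity -/
theorem ri_val {Z : Matrix (Fin n) (Fin n) ℚ⟦X⟧} {u₀ : ℚ} (hc : ∀ a b, Cc (u₀ : ℝ) (cx (Z a b)))
    {g : (Fin d → Fin n) → ℚ} {q : Polynomial ℚ} {R : (Fin d → Fin n) → Polynomial ℚ}
    (h : ∀ v, (q : ℚ⟦X⟧) * PowerSeries.C (g v) = ∑ v', (∏ l, Z (v l) (v' l)) * (R v' : ℚ⟦X⟧)) (v : Fin d → Fin n) :
    ((q.eval u₀ : ℚ) : ℂ) * (g v : ℂ) = ∑ v', (∏ l, ec (u₀ : ℝ) (cx (Z (v l) (v' l)))) * (((R v').eval u₀ : ℚ) : ℂ) := by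
  have h1 : cx ((q : ℚ⟦X⟧) * PowerSeries.C (g v)) = cx (∑ v', (∏ l, Z (v l) (v' l)) * (R v' : ℚ⟦X⟧)) := by rw [h v]
  have h2 : cx ((q : ℚ⟦X⟧) * PowerSeries.C (g v)) = cx (q : ℚ⟦X⟧) * cx ((Polynomial.C (g v) : Polynomial ℚ) : ℚ⟦X⟧) := by
    unfold cx
    rw [map_mul, Polynomial.coe_C]
  have h3 : cx (∑ v', (∏ l, Z (v l) (v' l)) * (R v' : ℚ⟦X⟧)) = ∑ v', (∏ l, cx (Z (v l) (v' l))) * cx (R v' : ℚ⟦X⟧) := by
    unfold cx
    rw [map_sum]
    refine Finset.sum_congr rfl fun v' _ => ?_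
    rw [map_mul, map_prod]
  rw [h2, h3] at h1
  have h4 := congrArg (ec (u₀ : ℝ)) h1
  have h5 : ∀ v' : Fin d → Fin n, Cc (u₀ : ℝ) (∏ l, cx (Z (v l) (v' l))) ∧ ec (u₀ : ℝ) (∏ l, cx (Z (v l) (v' l))) =
      ∏ l, ec (u₀ : ℝ) (cx (Z (v l) (v' l))) := fun v' => ec_prod _ fun l => hc _ _
  rw [ec_mul (ec_poly u₀ q).1 (ec_poly u₀ _).1, (ec_poly u₀ q).2, (ec_poly u₀ _).2, Polynomial.eval_C,
    (ec_sum _ fun v' => (h5 v').1.mul (ec_poly u₀ (R v')).1).2] at h4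
  rw [h4]
  refine Finset.sum_congr rfl fun v' _ => ?_
  rw [ec_mul (h5 v').1 (ec_poly u₀ (R v')).1, (h5 v').2, (ec_poly u₀ (R v')).2]

/-- the tensor power of an invertible matrix is injective -/
theorem inj_pow {Zt : Matrix (Fin n) (Fin n) ℂ} (hu : IsUnit Zt.det) {r : (Fin d → Fin n) → ℂ}
    (h : ∀ v : Fin d → Fin n, ∑ v' : Fin d → Fin n, (∏ l, Zt (v l) (v' l)) * r v' = 0) (v : Fin d → Fin n) : r v = 0 := by
  set w : Ten ℂ 0 d 0 n := fun _ v => r v with hw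
  have h1 : gp 1 Zt w = 0 := by
    funext u v
    rw [gp_apply, Fintype.sum_unique]
    refine Eq.trans (Finset.sum_congr rfl fun v' _ => ?_) (h v)
    rw [Finset.univ_eq_empty, Finset.prod_empty, one_mul]
  have h2 : gp (1 * 1) (Zt⁻¹ * Zt) w = gp 1 Zt⁻¹ (gp 1 Zt w) := gp_mul _ _ _ _ _
  rw [h1, gp_zero, Matrix.nonsing_inv_mul _ hu, one_mul, gp_one] at h2
  exact congrFun (congrFun h2 default) v

theorem ri_one {Z : Matrix (Fin n) (Fin n) ℚ⟦X⟧} {u₀ : ℚ} (hc : ∀ a b, Cc (u₀ : ℝ) (cx (Z a b)))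
    {Zt : Matrix (Fin n) (Fin n) ℂ} (hZt : ∀ a b, Zt a b = ec (u₀ : ℝ) (cx (Z a b))) (hu : IsUnit Zt.det)
    {g : (Fin d → Fin n) → ℚ} : ∀ (N : ℕ) (q : Polynomial ℚ) (R : (Fin d → Fin n) → Polynomial ℚ), q.natDegree = N → q ≠ 0 →
      (∀ v, (q : ℚ⟦X⟧) * PowerSeries.C (g v) = ∑ v', (∏ l, Z (v l) (v' l)) * (R v' : ℚ⟦X⟧)) →
      ∃ h : (Fin d → Fin n) → ℚ, ∀ v, ∑ v', (∏ l, Zt (v l) (v' l)) * (h v' : ℂ) = (g v : ℂ) := by
  intro N
  induction N with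
  | zero =>
    intro q R hN hq h
    have h0 : q.eval u₀ ≠ 0 := by
      rw [Polynomial.eq_C_of_natDegree_eq_zero hN, Polynomial.eval_C]
      intro h1
      refine hq ?_
      rw [Polynomial.eq_C_of_natDegree_eq_zero hN, h1, Polynomial.C_0]
    refine ⟨fun v' => (R v').eval u₀ / q.eval u₀, fun v => ?_⟩
    have h1 := ri_val hc h v
    have h2 : ((q.eval u₀ : ℚ) : ℂ) ≠ 0 := Rat.cast_ne_zero.2 h0
    have h3 : (g v : ℂ) = (∑ v', (∏ l, ec (u₀ : ℝ) (cx (Z (v l) (v' l)))) * (((R v').eval u₀ : ℚ) : ℂ)) / ((q.eval u₀ : ℚ) : ℂ) := by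
      rw [eq_div_iff h2, ← h1, mul_comm]
    rw [h3, Finset.sum_div]
    refine Finset.sum_congr rfl fun v' _ => ?_
    rw [Rat.cast_div, mul_div_assoc]
    simp only [hZt]
  | succ N ih =>
    intro q R hN hq h
    by_cases h0 : q.eval u₀ = 0
    · have h1 : ∀ v, (((R v).eval u₀ : ℚ) : ℂ) = 0 := by
        refine inj_pow hu fun v => ?_
        have h2 := ri_val hc h v
        rw [h0, Rat.cast_zero, zero_mul] at h2
        rw [h2]
        simp only [hZt]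
      obtain ⟨q₁, hq₁⟩ := Polynomial.dvd_iff_isRoot.2 h0
      have h3 : ∀ v, ∃ R₁, R v = (Polynomial.X - Polynomial.C u₀) * R₁ := fun v =>
        Polynomial.dvd_iff_isRoot.2 (Rat.cast_eq_zero.1 (h1 v))
      choose R₁ hR₁ using h3
      have hx : (Polynomial.X - Polynomial.C u₀ : Polynomial ℚ) ≠ 0 := Polynomial.X_sub_C_ne_zero u₀
      have hq1 : q₁ ≠ 0 := by
        rintro rfl
        exact hq (by rw [hq₁, mul_zero])
      have hdeg : q₁.natDegree = N := by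
        have h4 := Polynomial.natDegree_mul hx hq1
        rw [← hq₁, hN, Polynomial.natDegree_X_sub_C] at h4
        omega
      refine ih q₁ R₁ hdeg hq1 fun v => ?_
      have hx' : ((Polynomial.X - Polynomial.C u₀ : Polynomial ℚ) : ℚ⟦X⟧) ≠ 0 := by
        intro h4
        exact hx (Polynomial.coe_inj.1 (by rw [h4, Polynomial.coe_zero]))
      refine mul_left_cancel₀ hx' ?_
      have h5 := h v
      rw [hq₁, Polynomial.coe_mul, mul_assoc] at h5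
      rw [h5, Finset.mul_sum]
      refine Finset.sum_congr rfl fun v' _ => ?_
      rw [hR₁ v', Polynomial.coe_mul]
      ring
    · refine ⟨fun v' => (R v').eval u₀ / q.eval u₀, fun v => ?_⟩
      have h1 := ri_val hc h v
      have h2 : ((q.eval u₀ : ℚ) : ℂ) ≠ 0 := Rat.cast_ne_zero.2 h0
      have h3 : (g v : ℂ) = (∑ v', (∏ l, ec (u₀ : ℝ) (cx (Z (v l) (v' l)))) * (((R v').eval u₀ : ℚ) : ℂ)) / ((q.eval u₀ : ℚ) : ℂ) := by
        rw [eq_div_iff h2, ← h1, mul_comm]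
      rw [h3, Finset.sum_div]
      refine Finset.sum_congr rfl fun v' _ => ?_
      rw [Rat.cast_div, mul_div_assoc]
      simp only [hZt]

/-- **rational invariant tensors are images of rational tensors under the values of `Z`** -/
theorem ri_eval {Z : Matrix (Fin n) (Fin n) ℚ⟦X⟧} {𝔤 : Submodule ℂ (Matrix (Fin n) (Fin n) ℂ)} (hRI : RI Z 𝔤) {u₀ : ℚ}
    (hc : ∀ a b, Cc (u₀ : ℝ) (cx (Z a b))) {Zt : Matrix (Fin n) (Fin n) ℂ} (hZt : ∀ a b, Zt a b = ec (u₀ : ℝ) (cx (Z a b)))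
    (hu : IsUnit Zt.det) (g : Ten ℚ d₀ d r₀ n) (hg : ∀ X ∈ 𝔤, la X (tC g) = 0) :
    ∃ h : Ten ℚ d₀ d r₀ n, gp 1 Zt (tC h) = tC g := by
  have h1 : ∀ u : Fin d₀ → Fin r₀, ∃ h : (Fin d → Fin n) → ℚ, ∀ v, ∑ v', (∏ l, Zt (v l) (v' l)) * (h v' : ℂ) = (g u v : ℂ) := by
    intro u
    obtain ⟨q, R, hq, hR⟩ := hRI d (g u) fun X hX v => by
      have h2 := congrFun (congrFun (hg X hX) u) v
      rw [la_apply] at h2
      exact h2
    exact ri_one hc hZt hu q.natDegree q R rfl hq hR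
  choose h hh using h1
  refine ⟨h, ?_⟩
  funext u v
  rw [gp_apply]
  simp only [prod_one]
  rw [Finset.sum_eq_single u]
  · simp only [if_true, one_mul]
    exact hh u v
  · intro u' _ hu'
    refine Finset.sum_eq_zero fun v' _ => ?_
    rw [if_neg hu', zero_mul, zero_mul]
  · intro h2
    exact absurd (Finset.mem_univ _) h2

end Pool.Agent.Helper880_AH
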