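import Pool.Agent.Helper880_EX.Mtb
import Pool.Agent.Helper880_DB.Pw
import Pool.Agent.Helper880_R3.Rel

/-!
# Conjugation of tensors which are invariant under a rational Lie algebra
-/

set_option autoImplicit false
set_option linter.unusedSectionVars false
set_option linter.unusedVariables false

open Matrix Module

namespace Pool.Agent.Helper880_AH

open Pool.Agent.Helper880_ZP
open Pool.Agent.Helper880_HC (Ten act act_apply act_add act_smul act_zero act_br tC one one_apply' one_sum)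
open Pool.Agent.Helper880_DB (pw pw_smul pw_mul pw_one pw_HD)

variable {n r₀ d₀ d : ℕ}

/-- the action of a pair of matrices on tensors -/
def gp (x : Matrix (Fin r₀) (Fin r₀) ℂ) (X : Matrix (Fin n) (Fin n) ℂ) (f : Ten ℂ d₀ d r₀ n) : Ten ℂ d₀ d r₀ n :=
  pw (fun _ : Fin d => (0 : Fin 1)) x (fun _ => X) f

theorem gp_apply (x : Matrix (Fin r₀) (Fin r₀) ℂ) (X : Matrix (Fin n) (Fin n) ℂ) (f : Ten ℂ d₀ d r₀ n)
    (u : Fin d₀ → Fin r₀) (v : Fin d → Fin n) :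
    gp x X f u v = ∑ u', ∑ v', (∏ k, x (u k) (u' k)) * (∏ l, X (v l) (v' l)) * f u' v' := rfl

theorem gp_mul (x y : Matrix (Fin r₀) (Fin r₀) ℂ) (X Y : Matrix (Fin n) (Fin n) ℂ) (f : Ten ℂ d₀ d r₀ n) :
    gp (x * y) (X * Y) f = gp x X (gp y Y f) := pw_mul _ _ _ (fun _ => X) (fun _ => Y) _

theorem gp_one (f : Ten ℂ d₀ d r₀ n) : gp 1 1 f = f := pw_one _ _

theorem gp_add (x : Matrix (Fin r₀) (Fin r₀) ℂ) (X : Matrix (Fin n) (Fin n) ℂ) (f g : Ten ℂ d₀ d r₀ n) :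
    gp x X (f + g) = gp x X f + gp x X g := by
  funext u v
  rw [Pi.add_apply, Pi.add_apply, gp_apply, gp_apply, gp_apply, ← Finset.sum_add_distrib]
  refine Finset.sum_congr rfl fun u' _ => ?_
  rw [← Finset.sum_add_distrib]
  exact Finset.sum_congr rfl fun v' _ => by rw [Pi.add_apply, Pi.add_apply, mul_add]

theorem gp_smul (x : Matrix (Fin r₀) (Fin r₀) ℂ) (X : Matrix (Fin n) (Fin n) ℂ) (c : ℂ) (f : Ten ℂ d₀ d r₀ n) :
    gp x X (c • f) = c • gp x X f := pw_smul _ _ _ _ _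

theorem gp_zero (x : Matrix (Fin r₀) (Fin r₀) ℂ) (X : Matrix (Fin n) (Fin n) ℂ) :
    gp x X (0 : Ten ℂ d₀ d r₀ n) = 0 := by
  have h1 := gp_smul x X 0 (0 : Ten ℂ d₀ d r₀ n)
  rwa [zero_smul, zero_smul] at h1

theorem gp_sum {ι : Type} (x : Matrix (Fin r₀) (Fin r₀) ℂ) (X : Matrix (Fin n) (Fin n) ℂ) (s : Finset ι)
    (F : ι → Ten ℂ d₀ d r₀ n) : gp x X (∑ i ∈ s, F i) = ∑ i ∈ s, gp x X (F i) := by
  classical
  induction s using Finset.induction_on with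
  | empty => rw [Finset.sum_empty, Finset.sum_empty, gp_zero]
  | insert a s ha ih => rw [Finset.sum_insert ha, Finset.sum_insert ha, gp_add, ih]

/-- the action of the Lie algebra on the second factor -/
noncomputable def la (X : Matrix (Fin n) (Fin n) ℂ) (f : Ten ℂ d₀ d r₀ n) : Ten ℂ d₀ d r₀ n :=
  act (fun _ : Fin d => (0 : Fin 1)) 0 (fun _ => X) f

theorem la_apply (X : Matrix (Fin n) (Fin n) ℂ) (f : Ten ℂ d₀ d r₀ n) (u : Fin d₀ → Fin r₀) (v : Fin d → Fin n) :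
    la X f u v = ∑ l, ∑ a, X (v l) a * f u (Function.update v l a) := by
  unfold la
  rw [act_apply]
  have h1 : ∑ k, ∑ a, (0 : Matrix (Fin r₀) (Fin r₀) ℂ) (u k) a * f (Function.update u k a) v = 0 :=
    Finset.sum_eq_zero fun k _ => Finset.sum_eq_zero fun a _ => by rw [Matrix.zero_apply, zero_mul]
  rw [h1, zero_add]

theorem one_la (X : Matrix (Fin n) (Fin n) ℂ) (f : Ten ℂ d₀ d r₀ n) :
    one (fun _ : Fin d => (0 : Fin 1)) f 0 X = la X f := by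
  rw [one_apply']
  unfold la
  have h1 : (Pi.single 0 X : Fin 1 → Matrix (Fin n) (Fin n) ℂ) = fun _ => X := by
    funext j
    rw [Subsingleton.elim j 0, Pi.single_eq_same]
  rw [h1]

theorem gp_HD (Y : Matrix (Fin n) (Fin n) ℂ) (f : Ten ℂ d₀ d r₀ n) (u : Fin d₀ → Fin r₀) (v : Fin d → Fin n) :
    HasDerivAt (fun s : ℂ => gp 1 (NormedSpace.exp (s • Y)) f u v) (la Y f u v) 0 :=
  pw_HD (fun _ : Fin d => (0 : Fin 1)) (fun _ => Y) f u v

/-- the actions of the group and of the Lie algebra -/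
theorem la_gp (x : Matrix (Fin r₀) (Fin r₀) ℂ) {X : Matrix (Fin n) (Fin n) ℂ} (hX : IsUnit X.det) (Y : Matrix (Fin n) (Fin n) ℂ)
    (f : Ten ℂ d₀ d r₀ n) : la Y (gp x X f) = gp x X (la (X⁻¹ * Y * X) f) := by
  funext u v
  have h1 : HasDerivAt (fun s : ℂ => gp 1 (NormedSpace.exp (s • Y)) (gp x X f) u v) (la Y (gp x X f) u v) 0 :=
    gp_HD Y _ u v
  have h2 : HasDerivAt (fun s : ℂ => gp x X (gp 1 (NormedSpace.exp (s • (X⁻¹ * Y * X))) f) u v)
      (gp x X (la (X⁻¹ * Y * X) f) u v) 0 := by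
    simp only [gp_apply x X]
    exact HasDerivAt.fun_sum fun u' _ => HasDerivAt.fun_sum fun v' _ => (gp_HD (X⁻¹ * Y * X) f u' v').const_mul _
  have h3 : (fun s : ℂ => gp 1 (NormedSpace.exp (s • Y)) (gp x X f) u v) =
      fun s : ℂ => gp x X (gp 1 (NormedSpace.exp (s • (X⁻¹ * Y * X))) f) u v := by
    funext s
    rw [← gp_mul, ← gp_mul, one_mul, mul_one]
    have hu : IsUnit X := (Matrix.isUnit_iff_isUnit_det _).2 hX
    have h4 : NormedSpace.exp (s • (X⁻¹ * Y * X)) = X⁻¹ * NormedSpace.exp (s • Y) * X := by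
      have h5 := Matrix.exp_conj' X (s • Y) hu
      rw [← h5]
      congr 1
      rw [Matrix.mul_smul, Matrix.smul_mul]
    rw [h4, ← Matrix.mul_assoc, ← Matrix.mul_assoc, Matrix.mul_nonsing_inv _ hX, Matrix.one_mul]
  rw [h3] at h1
  exact h1.unique h2

/-- coordinates of a complex tensor -/
noncomputable def co (μ : ℂ →ₗ[ℚ] ℚ) (w : Ten ℂ d₀ d r₀ n) : Ten ℚ d₀ d r₀ n := fun u v => μ (w u v)

theorem mu_rat (μ : ℂ →ₗ[ℚ] ℚ) (q : ℚ) (z : ℂ) : μ ((q : ℂ) * z) = q * μ z := by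
  rw [← Rat.smul_def, map_smul, smul_eq_mul]

/-- the coordinates of invariant tensors are invariant -/
theorem co_kill {𝔤 : Submodule ℂ (Matrix (Fin n) (Fin n) ℂ)} (hr : DefOver K₀ 𝔤) {w : Ten ℂ d₀ d r₀ n}
    (hw : ∀ X ∈ 𝔤, la X w = 0) (μ : ℂ →ₗ[ℚ] ℚ) : ∀ X ∈ 𝔤, la X (tC (co μ w)) = 0 := by
  have key : 𝔤 ≤ LinearMap.ker (one (fun _ : Fin d => (0 : Fin 1)) (tC (co μ w)) 0) := by
    rw [hr]
    refine Submodule.span_le.2 ?_
    rintro X ⟨hX, hq⟩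
    rw [SetLike.mem_coe, LinearMap.mem_ker, one_la]
    funext u v
    rw [la_apply]
    have h1 := congrArg μ (congrFun (congrFun (hw X hX) u) v)
    rw [la_apply, map_sum] at h1
    have h2 : (((∑ l, μ (∑ a, X (v l) a * w u (Function.update v l a)) : ℚ)) : ℂ) = 0 := by
      rw [h1]
      show ((μ 0 : ℚ) : ℂ) = 0
      rw [map_zero, Rat.cast_zero]
    rw [Rat.cast_sum] at h2
    refine Eq.trans (Finset.sum_congr rfl fun l _ => ?_) h2
    rw [map_sum, Rat.cast_sum]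
    refine Finset.sum_congr rfl fun a _ => ?_
    obtain ⟨q, hq'⟩ := mem_K₀.1 (hq (v l) a)
    rw [hq', mu_rat, Rat.cast_mul]
    rfl
  intro X hX
  rw [← one_la]
  exact LinearMap.mem_ker.1 (key hX)

/-- an invariant tensor is a combination of rational invariant tensors -/
theorem expand {𝔤 : Submodule ℂ (Matrix (Fin n) (Fin n) ℂ)} (hr : DefOver K₀ 𝔤) {w : Ten ℂ d₀ d r₀ n}
    (hw : ∀ X ∈ 𝔤, la X w = 0) : ∃ (ι : Type) (s : Finset ι) (b : ι → ℂ) (g : ι → Ten ℚ d₀ d r₀ n),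
      (∀ i, ∀ X ∈ 𝔤, la X (tC (g i)) = 0) ∧ w = ∑ i ∈ s, b i • tC (g i) := by
  classical
  set b := Module.Basis.ofVectorSpace ℚ ℂ with hb
  set s : Finset _ := Finset.univ.biUnion fun p : (Fin d₀ → Fin r₀) × (Fin d → Fin n) => (b.repr (w p.1 p.2)).support with hs
  refine ⟨_, s, fun i => b i, fun i => co (b.coord i) w, fun i => co_kill hr hw _, ?_⟩
  funext u v
  rw [Finset.sum_apply, Finset.sum_apply]
  have h1 := b.linearCombination_repr (w u v)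
  have h2 : (b.repr (w u v)).support ⊆ s := fun i hi => Finset.mem_biUnion.2 ⟨(u, v), Finset.mem_univ _, hi⟩
  have h3 := Finsupp.sum_of_support_subset (b.repr (w u v)) h2 (fun i a => a • b i) (fun i _ => zero_smul ℚ (b i))
  rw [Finsupp.linearCombination_apply, h3] at h1
  conv_lhs => rw [← h1]
  refine Finset.sum_congr rfl fun i _ => ?_
  show (b.repr (w u v)) i • b i = b i * (((b.repr (w u v)) i : ℚ) : ℂ)
  rw [Rat.smul_def, mul_comm]

/-- the conjugate tensor, with a twist by `κ` -/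
noncomputable def cw (σ : ℂ ≃+* ℂ) (κ : ℂ) (w : Ten ℂ d₀ d r₀ n) : Ten ℂ d₀ d r₀ n := fun u v => κ⁻¹ * σ (κ * w u v)

theorem cw_sum {ι : Type} (σ : ℂ ≃+* ℂ) (κ : ℂ) (s : Finset ι) (b : ι → ℂ) (g : ι → Ten ℚ d₀ d r₀ n) :
    cw σ κ (∑ i ∈ s, b i • tC (g i)) = ∑ i ∈ s, (κ⁻¹ * σ (κ * b i)) • tC (g i) := by
  funext u v
  show κ⁻¹ * σ (κ * (∑ i ∈ s, b i • tC (g i)) u v) = _
  rw [Finset.sum_apply, Finset.sum_apply, Finset.sum_apply, Finset.sum_apply, Finset.mul_sum, map_sum, Finset.mul_sum]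
  refine Finset.sum_congr rfl fun i _ => ?_
  show κ⁻¹ * σ (κ * (b i * ((g i u v : ℚ) : ℂ))) = κ⁻¹ * σ (κ * b i) * ((g i u v : ℚ) : ℂ)
  rw [← mul_assoc, map_mul, map_ratCast, mul_assoc]

/-- **conjugation and rational invariants**: if all rational invariant tensors are images of rational tensors under `Zt` then
this is compatible with conjugation -/
theorem conj_inv {𝔤 : Submodule ℂ (Matrix (Fin n) (Fin n) ℂ)} (hr : DefOver K₀ 𝔤) {Zt : Matrix (Fin n) (Fin n) ℂ}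
    (hZ : ∀ g : Ten ℚ d₀ d r₀ n, (∀ X ∈ 𝔤, la X (tC g) = 0) → ∃ h : Ten ℚ d₀ d r₀ n, gp 1 Zt (tC h) = tC g)
    {w : Ten ℂ d₀ d r₀ n} (hw : ∀ X ∈ 𝔤, la X w = 0) :
    ∃ wt : Ten ℂ d₀ d r₀ n, gp 1 Zt wt = w ∧ ∀ (σ : ℂ ≃+* ℂ) (κ : ℂ), gp 1 Zt (cw σ κ wt) = cw σ κ w := by
  obtain ⟨ι, s, b, g, h1, h2⟩ := expand hr hw
  choose h hh using fun i => hZ (g i) (h1 i)
  refine ⟨∑ i ∈ s, b i • tC (h i), ?_, fun σ κ => ?_⟩
  · rw [gp_sum, h2]
    exact Finset.sum_congr rfl fun i _ => by rw [gp_smul, hh]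
  · rw [cw_sum, gp_sum, h2, cw_sum]
    exact Finset.sum_congr rfl fun i _ => by rw [gp_smul, hh]

/-- conjugates of invariant tensors are invariant -/
theorem cw_kill {𝔤 : Submodule ℂ (Matrix (Fin n) (Fin n) ℂ)} (hr : DefOver K₀ 𝔤) {w : Ten ℂ d₀ d r₀ n}
    (hw : ∀ X ∈ 𝔤, la X w = 0) (σ : ℂ ≃+* ℂ) (κ : ℂ) : ∀ X ∈ 𝔤, la X (cw σ κ w) = 0 := by
  obtain ⟨ι, s, b, g, h1, h2⟩ := expand hr hw
  intro X hX
  rw [h2, cw_sum]
  unfold la
  rw [map_sum]
  refine Finset.sum_eq_zero fun i _ => ?_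
  rw [map_smul]
  have h3 := h1 i X hX
  unfold la at h3
  rw [h3, smul_zero]

end Pool.Agent.Helper880_AH
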